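import Pool.Agent.H54.GN.Lb
import Pool.Agent.H2.GEN.Rate0

/-!
# The rates of the positions given closed labels (any finite family of labels)

* `MemG`: the families of a class, with the values of labels of windows as side information.
* `rate_gen`: the rates, for any countable or finite list of label properties.
* `MemN`, `rateN`: the instance for the labels of one coordinate over a nested order (`Lb`).
-/

set_option autoImplicit false

namespace Pool.GEN

open Finset Real MvPolynomial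
open Pool.Agent.H49.Ent Pool.Agent.H32.Dense Pool.STK Pool.KA Pool.KSAT Pool.K2S Pool.PB Pool.S6C

variable {m : ℕ}

/-- A property of labels: the type of the values, the value at the point, the value on the line. -/
abbrev LbP (m : ℕ) : Type 1 :=
  ∀ (J : ℕ) (F : Fam m J), (F.Ω → Prop) → ∀ V : Type, (PtT F → V) → (LnT F → V) → Prop

/-- The families with the labels as side information. -/
inductive MemG (S : PCl m) (w : ℝ) {ι : Type} (R : ι → LbP m) (τ : ℝ) :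
    ∀ (J : ℕ) (F : Fam m J), (F.Ω → Prop) → Prop
  | mk (J : ℕ) (F : Fam m J) (A : F.Ω → Prop) (V : ι → Type) (z : ∀ i, PtT F → V i)
      (z' : ∀ i, LnT F → V i)
      (hcls : ∀ i ω, A ω → z i (ptr F J ω) = z' i (slam F ⌊w * J⌋₊ ω))
      (hR : ∀ i, R i J F A (V i) (z i) (z' i))
      (hS : S.St τ J F A) :
      MemG S w R τ J (F.cnd (fun ω => fun i => z' i (slam F ⌊w * J⌋₊ ω))) A

/-- The class of the families with the labels as side information. -/
def memG (S : PCl m) (w : ℝ) {ι : Type} (R : ι → LbP m)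
    (hR : ∀ (i : ι) (J : ℕ) (F : Fam m J) (A B : F.Ω → Prop) (V : Type) (z : PtT F → V)
      (z' : LnT F → V), Sub B A → R i J F A V z z' → R i J F B V z z') : PCl m where
  St τ J F A := MemG S w R τ J F A
  mono h hS := by
    cases hS with
    | mk F A V z z' hcls hR' hS => exact MemG.mk _ _ _ V z z' hcls hR' (S.mono h hS)
  res := by
    intro τ τ' J F A B hτ hS hB hP
    cases hS with
    | mk F A V z z' hcls hR' hS =>
      exact MemG.mk J F B V z z' (fun i ω hω => hcls i ω (hB ω hω))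
        (fun i => hR i J F A B (V i) (z i) (z' i) hB (hR' i)) (S.res hτ hS hB hP)

theorem memG_ne {S : PCl m} (hS : S.Ne) {w : ℝ} {ι : Type} [Finite ι] {R : ι → LbP m}
    (hR : ∀ (i : ι) (J : ℕ) (F : Fam m J) (A B : F.Ω → Prop) (V : Type) (z : PtT F → V)
      (z' : LnT F → V), Sub B A → R i J F A V z z' → R i J F B V z z')
    (hlab : ∀ i, Bas S (fun J F A => ∃ (V : Type) (z : PtT F → V) (z' : LnT F → V),
      (∀ ω, A ω → z (ptr F J ω) = z' (slam F ⌊w * J⌋₊ ω)) ∧ R i J F A V z z')) :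
    (memG S w R hR).Ne := by
  intro τ hτ J₁
  obtain ⟨n, ⟨f⟩⟩ := Finite.exists_equiv_fin ι
  obtain ⟨τ', hτ', J₂, hb⟩ := Bas.all (S := S) n
    (Φ := fun i J F A => ∀ h : i < n, ∃ (V : Type) (z : PtT F → V) (z' : LnT F → V),
      (∀ ω, A ω → z (ptr F J ω) = z' (slam F ⌊w * J⌋₊ ω)) ∧ R (f.symm ⟨i, h⟩) J F A V z z')
    (fun i hi => Bas.mono 0 (hlab (f.symm ⟨i, hi⟩)) (fun J _ F A hA _ => hA))
  obtain ⟨J, hJ, F, A, hA⟩ := hS (min τ τ') (lt_min hτ hτ') (max J₁ J₂)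
  have h1 := hb J ((le_max_right _ _).trans hJ) F A (S.mono (min_le_right _ _) hA)
  have h2 : ∀ j : ι, ∃ (V : Type) (z : PtT F → V) (z' : LnT F → V),
      (∀ ω, A ω → z (ptr F J ω) = z' (slam F ⌊w * J⌋₊ ω)) ∧ R j J F A V z z' := fun j => by
    have := h1 (f j) (f j).2 (f j).2
    simpa using this
  choose V z z' hcls hG using h2
  exact ⟨J, (le_max_left _ _).trans hJ, _, _,
    MemG.mk J F A V z z' hcls hG (S.mono (min_le_left _ _) hA)⟩

theorem memG_cnt {S : PCl m} {M : ℝ} {w : ℝ} {ι : Type} {R : ι → LbP m}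
    (hR : ∀ (i : ι) (J : ℕ) (F : Fam m J) (A B : F.Ω → Prop) (V : Type) (z : PtT F → V)
      (z' : LnT F → V), Sub B A → R i J F A V z z' → R i J F B V z z')
    (hcnt : Bas S (fun J F A => ∀ k : ℕ, k ≤ J →
      (cnt F.p (ptr F k) A : ℝ) ≤ Real.exp (M * J))) :
    Bas (memG S w R hR) (fun J F A => ∀ k : ℕ, k ≤ J →
      (cnt F.p (ptr F k) A : ℝ) ≤ Real.exp (M * J)) := by
  obtain ⟨τ, hτ, J₁, hb⟩ := hcnt
  refine ⟨τ, hτ, J₁, fun J hJ F A hA k hk => ?_⟩
  have hA' : MemG S w R τ J F A := hA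
  cases hA' with
  | mk F A V z z' hcls hR' hS =>
    refine le_trans ?_ (hb J hJ F A hS J le_rfl)
    obtain ⟨φ, hφ⟩ := ptr_coarse F hk
    have := cnt_comp_le F.p (ptr F J)
      (ptr (F.cnd (fun ω => fun i => z' i (slam F ⌊w * J⌋₊ ω))) k) (A := A)
      (fun y => ((φ y).1, ((φ y).2.1, ((fun j => z j y), (φ y).2.2)))) (fun ω _ hω => by
        have e1 := hφ ω
        refine Prod.ext ?_ (Prod.ext ?_ (Prod.ext ?_ ?_))
        · show F.X k ω = (φ (ptr F J ω)).1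
          rw [← e1]
          rfl
        · show F.T ω = (φ (ptr F J ω)).2.1
          rw [← e1]
          rfl
        · funext j
          exact (hcls j ω hω).symm
        · show F.Z ω = (φ (ptr F J ω)).2.2
          rw [← e1]
          rfl)
    exact_mod_cast this

/-- **(RATE)** for any finite family of labels of the windows `⌊w J⌋`. -/
theorem rate_gen (S : PCl m) (M w : ℝ) {ι : Type} [Finite ι] (R : ι → LbP m)
    (hR : ∀ (i : ι) (J : ℕ) (F : Fam m J) (A B : F.Ω → Prop) (V : Type) (z : PtT F → V)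
      (z' : LnT F → V), Sub B A → R i J F A V z z' → R i J F B V z z')
    (hS : S.Ne)
    (hpos : ∀ (τ : ℝ) (J : ℕ) (F : Fam m J) (A : F.Ω → Prop), S.St τ J F A → 0 < Pe F.p A)
    (hcnt : Bas S (fun J F A => ∀ k : ℕ, k ≤ J →
      (cnt F.p (ptr F k) A : ℝ) ≤ Real.exp (M * J)))
    (hlab : ∀ i, Bas S (fun J F A => ∃ (V : Type) (z : PtT F → V) (z' : LnT F → V),
      (∀ ω, A ω → z (ptr F J ω) = z' (slam F ⌊w * J⌋₊ ω)) ∧ R i J F A V z z')) :
    ∃ S' : PCl m, S'.Ne ∧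
      (∀ (τ : ℝ) (J : ℕ) (F : Fam m J) (A : F.Ω → Prop), S'.St τ J F A →
        MemG S w R τ J F A) ∧
      ∃ r : ℝ → ℝ, ContinuousOn r (Set.Icc 0 1) ∧ MonotoneOn r (Set.Icc 0 1) ∧ 0 ≤ r 0 ∧
        ∀ Q : ℝ, 0 ≤ Q → Q ≤ 1 → ∀ h : ℝ, 0 < h → Bas S' (fun J F A =>
          |CH (Pool.Agent.H49.Ent.cond F.p A True) (F.X ⌊Q * J⌋₊) F.W -
            r Q * Real.log 2 * J| ≤ h * J) := by
  refine rates (S := memG S w R hR) (memG_ne hS hR hlab) ?_ (M := M) (memG_cnt hR hcnt)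
  intro τ J F A hA
  have hA' : MemG S w R τ J F A := hA
  cases hA' with
  | mk F A V z z' hcls hR' hS' => exact hpos τ J F A hS'

/-! ### One closed function -/

/-- The families with one closed function as side information. -/
inductive MemC (S : PCl m) (w : ℝ) (R : LbP m) (τ : ℝ) :
    ∀ (J : ℕ) (F : Fam m J), (F.Ω → Prop) → Prop
  | mk (J : ℕ) (F : Fam m J) (A : F.Ω → Prop) (V : Type) (z : PtT F → V) (z' : LnT F → V)
      (hcls : ∀ ω, A ω → z (ptr F J ω) = z' (slam F ⌊w * J⌋₊ ω))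
      (hR : R J F A V z z')
      (hS : S.St τ J F A) :
      MemC S w R τ J (F.cnd (fun ω => z' (slam F ⌊w * J⌋₊ ω))) A

/-- The class of the families with one closed function as side information. -/
def memC1 (S : PCl m) (w : ℝ) (R : LbP m)
    (hR : ∀ (J : ℕ) (F : Fam m J) (A B : F.Ω → Prop) (V : Type) (z : PtT F → V)
      (z' : LnT F → V), Sub B A → R J F A V z z' → R J F B V z z') : PCl m where
  St τ J F A := MemC S w R τ J F A
  mono h hS := by
    cases hS with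
    | mk F A V z z' hcls hR' hS => exact MemC.mk _ _ _ V z z' hcls hR' (S.mono h hS)
  res := by
    intro τ τ' J F A B hτ hS hB hP
    cases hS with
    | mk F A V z z' hcls hR' hS =>
      exact MemC.mk J F B V z z' (fun ω hω => hcls ω (hB ω hω))
        (hR J F A B V z z' hB hR') (S.res hτ hS hB hP)

theorem memC1_ne {S : PCl m} (hS : S.Ne) {w : ℝ} {R : LbP m}
    (hR : ∀ (J : ℕ) (F : Fam m J) (A B : F.Ω → Prop) (V : Type) (z : PtT F → V)
      (z' : LnT F → V), Sub B A → R J F A V z z' → R J F B V z z')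
    (hlab : Bas S (fun J F A => ∃ (V : Type) (z : PtT F → V) (z' : LnT F → V),
      (∀ ω, A ω → z (ptr F J ω) = z' (slam F ⌊w * J⌋₊ ω)) ∧ R J F A V z z')) :
    (memC1 S w R hR).Ne := by
  intro τ hτ J₁
  obtain ⟨τ', hτ', J₂, hb⟩ := hlab
  obtain ⟨J, hJ, F, A, hA⟩ := hS (min τ τ') (lt_min hτ hτ') (max J₁ J₂)
  obtain ⟨V, z, z', hcls, hG⟩ :=
    hb J ((le_max_right _ _).trans hJ) F A (S.mono (min_le_right _ _) hA)
  exact ⟨J, (le_max_left _ _).trans hJ, _, _,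
    MemC.mk J F A V z z' hcls hG (S.mono (min_le_left _ _) hA)⟩

theorem memC1_cnt {S : PCl m} {M : ℝ} {w : ℝ} {R : LbP m}
    (hR : ∀ (J : ℕ) (F : Fam m J) (A B : F.Ω → Prop) (V : Type) (z : PtT F → V)
      (z' : LnT F → V), Sub B A → R J F A V z z' → R J F B V z z')
    (hcnt : Bas S (fun J F A => ∀ k : ℕ, k ≤ J →
      (cnt F.p (ptr F k) A : ℝ) ≤ Real.exp (M * J))) :
    Bas (memC1 S w R hR) (fun J F A => ∀ k : ℕ, k ≤ J →
      (cnt F.p (ptr F k) A : ℝ) ≤ Real.exp (M * J)) := by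
  obtain ⟨τ, hτ, J₁, hb⟩ := hcnt
  refine ⟨τ, hτ, J₁, fun J hJ F A hA k hk => ?_⟩
  have hA' : MemC S w R τ J F A := hA
  cases hA' with
  | mk F A V z z' hcls hR' hS =>
    refine le_trans ?_ (hb J hJ F A hS J le_rfl)
    obtain ⟨φ, hφ⟩ := ptr_coarse F hk
    have := cnt_comp_le F.p (ptr F J)
      (ptr (F.cnd (fun ω => z' (slam F ⌊w * J⌋₊ ω))) k) (A := A)
      (fun y => ((φ y).1, ((φ y).2.1, (z y, (φ y).2.2)))) (fun ω _ hω => by
        have e1 := hφ ω
        refine Prod.ext ?_ (Prod.ext ?_ (Prod.ext ?_ ?_))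
        · show F.X k ω = (φ (ptr F J ω)).1
          rw [← e1]
          rfl
        · show F.T ω = (φ (ptr F J ω)).2.1
          rw [← e1]
          rfl
        · exact (hcls ω hω).symm
        · show F.Z ω = (φ (ptr F J ω)).2.2
          rw [← e1]
          rfl)
    exact_mod_cast this

/-- **(RATE)** for one closed function of the windows `⌊w J⌋`, with any hereditary property. -/
theorem rate_c1 (S : PCl m) (M w : ℝ) (R : LbP m)
    (hR : ∀ (J : ℕ) (F : Fam m J) (A B : F.Ω → Prop) (V : Type) (z : PtT F → V)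
      (z' : LnT F → V), Sub B A → R J F A V z z' → R J F B V z z')
    (hS : S.Ne)
    (hpos : ∀ (τ : ℝ) (J : ℕ) (F : Fam m J) (A : F.Ω → Prop), S.St τ J F A → 0 < Pe F.p A)
    (hcnt : Bas S (fun J F A => ∀ k : ℕ, k ≤ J →
      (cnt F.p (ptr F k) A : ℝ) ≤ Real.exp (M * J)))
    (hlab : Bas S (fun J F A => ∃ (V : Type) (z : PtT F → V) (z' : LnT F → V),
      (∀ ω, A ω → z (ptr F J ω) = z' (slam F ⌊w * J⌋₊ ω)) ∧ R J F A V z z')) :
    ∃ S' : PCl m, S'.Ne ∧
      (∀ (τ : ℝ) (J : ℕ) (F : Fam m J) (A : F.Ω → Prop), S'.St τ J F A →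
        MemC S w R τ J F A) ∧
      ∃ r : ℝ → ℝ, ContinuousOn r (Set.Icc 0 1) ∧ MonotoneOn r (Set.Icc 0 1) ∧ 0 ≤ r 0 ∧
        ∀ Q : ℝ, 0 ≤ Q → Q ≤ 1 → ∀ h : ℝ, 0 < h → Bas S' (fun J F A =>
          |CH (Pool.Agent.H49.Ent.cond F.p A True) (F.X ⌊Q * J⌋₊) F.W -
            r Q * Real.log 2 * J| ≤ h * J) := by
  refine rates (S := memC1 S w R hR) (memC1_ne hS hR hlab) ?_ (M := M) (memC1_cnt hR hcnt)
  intro τ J F A hA
  have hA' : MemC S w R τ J F A := hA
  cases hA' with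
  | mk F A V z z' hcls hR' hS' => exact hpos τ J F A hS'

/-! ### Labels of one coordinate over a nested order -/

/-- The pairs `(j, k)` for which there is a label of `x k` over the first `j` coordinates. -/
abbrev PrN (σ : Equiv.Perm (Fin m)) : Type := {q : Fin m × Fin m // q.2 ∉ bef σ q.1}

/-- The families with the labels of all coordinates over the first `j` coordinates, for all `j`,
as side information; `ρ j` is the exponent of the radius. -/
inductive MemN (S : PCl m) (K : ℕ) (e w : ℝ) (σ : Equiv.Perm (Fin m)) (s ρ : Fin m → ℝ)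
    (τ : ℝ) : ∀ (J : ℕ) (F : Fam m J), (F.Ω → Prop) → Prop
  | mk (J : ℕ) (F : Fam m J) (A : F.Ω → Prop) (V : PrN σ → Type) (z : ∀ q, PtT F → V q)
      (z' : ∀ q, LnT F → V q) (G : ∀ q, V q → MvPolynomial (Option (Fin m)) ℝ)
      (hlab : ∀ q : PrN σ, LbOK F (bef σ q.1.1) q.1.2 K ⌊e * J⌋₊ J ⌊w * J⌋₊
        ⌊ρ q.1.1 * J⌋₊ ⌊s q.1.1 * J⌋₊ A (z q) (z' q) (G q))
      (hS : S.St τ J F A) :
      MemN S K e w σ s ρ τ J (F.cnd (fun ω => fun q => z' q (slam F ⌊w * J⌋₊ ω))) A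

/-- **(RATE)** the statement for the labels of one coordinate over a nested order. -/
def RateN (m : ℕ) : Prop :=
  ∀ (S : PCl m) (M : ℝ) (K : ℕ) (e w : ℝ) (σ : Equiv.Perm (Fin m)) (s ρ : Fin m → ℝ), S.Ne →
    (∀ (τ : ℝ) (J : ℕ) (F : Fam m J) (A : F.Ω → Prop), S.St τ J F A → 0 < Pe F.p A) →
    Bas S (fun J F A => ∀ k : ℕ, k ≤ J → (cnt F.p (ptr F k) A : ℝ) ≤ Real.exp (M * J)) →
    (∀ j, ∀ k ∉ bef σ j, Bas S (fun J F A =>
      Lb F (bef σ j) k K ⌊e * J⌋₊ J ⌊w * J⌋₊ ⌊ρ j * J⌋₊ ⌊s j * J⌋₊ A)) →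
    ∃ S' : PCl m, S'.Ne ∧
      (∀ (τ : ℝ) (J : ℕ) (F : Fam m J) (A : F.Ω → Prop), S'.St τ J F A →
        MemN S K e w σ s ρ τ J F A) ∧
      ∃ r : ℝ → ℝ, ContinuousOn r (Set.Icc 0 1) ∧ MonotoneOn r (Set.Icc 0 1) ∧ 0 ≤ r 0 ∧
        ∀ Q : ℝ, 0 ≤ Q → Q ≤ 1 → ∀ h : ℝ, 0 < h → Bas S' (fun J F A =>
          |CH (Pool.Agent.H49.Ent.cond F.p A True) (F.X ⌊Q * J⌋₊) F.W -
            r Q * Real.log 2 * J| ≤ h * J)

/-- The condition for the label `q`. -/
def labN (K : ℕ) (e w : ℝ) (σ : Equiv.Perm (Fin m)) (s ρ : Fin m → ℝ) (q : PrN σ) : LbP m :=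
  fun J F A V z z' => ∃ G : V → MvPolynomial (Option (Fin m)) ℝ,
    LbOK F (bef σ q.1.1) q.1.2 K ⌊e * J⌋₊ J ⌊w * J⌋₊ ⌊ρ q.1.1 * J⌋₊ ⌊s q.1.1 * J⌋₊ A z z' G

/-- **(RATE)** for the labels of one coordinate over a nested order. -/
theorem rateN (m : ℕ) : RateN m := by
  intro S M K e w σ s ρ hS hpos hcnt hlab
  have hR : ∀ (i : PrN σ) (J : ℕ) (F : Fam m J) (A B : F.Ω → Prop) (V : Type) (z : PtT F → V)
      (z' : LnT F → V), Sub B A → labN K e w σ s ρ i J F A V z z' →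
      labN K e w σ s ρ i J F B V z z' := by
    intro i J F A B V z z' hB h
    obtain ⟨G, hG⟩ := h
    exact ⟨G, hG.sub hB⟩
  obtain ⟨S', h1, h2, r, h3, h4, h5, h6⟩ := rate_gen S M w (labN K e w σ s ρ) hR hS hpos hcnt
    (fun q => by
      refine Bas.mono 0 (hlab q.1.1 q.1.2 q.2) (fun J _ F A hA => ?_)
      obtain ⟨V, z, z', G, hG⟩ := hA
      exact ⟨V, z, z', hG.cls, G, hG⟩)
  refine ⟨S', h1, fun τ J F A hA => ?_, r, h3, h4, h5, h6⟩
  have hA' := h2 τ J F A hA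
  cases hA' with
  | mk F A V z z' hcls hR' hS' =>
    choose G hG using hR'
    exact MemN.mk J F A V z z' G hG hS'

end Pool.GEN
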